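import Pool.Agent.SplH.MainW

set_option autoImplicit false

/-!
# The generic dimension of bivariate splines of smoothness `r` and degree `k ≥ 2 r + 1`

`T` is the set of the triangles of a triangulated domain with `c` holes (`c = 0`: a triangulated disc), `p` a
realisation, `SplineFn r k p T` the space of the `C^r` piecewise polynomials of degree at most `k` on it.
`num r k c T = (1 - c) (k + 2 choose 2) + (k - r + 1 choose 2) |E_I| - γ |V_I| + ∑ σ_v`, where `σ_v` is computed
with the number of edges at `v`.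

The generic dimension is this number for all `r ≥ 1` and all `k ≥ 2 r + 1`.
-/

namespace Pool.Agent.Results.MP_92924b_an.DimensionRange

open Pool.Agent.Spl1

/-- triangulated domains with `c` holes: `T` and all vertex stars are connected through edges, the Euler
characteristic is `1 - c`, and the boundary has at least `c + 1` components (`lab` is constant on the boundary
edges and takes `c + 1` values on the boundary) -/
structure Domain {V : Type} [Fintype V] [DecidableEq V] (T : Finset (Finset V)) (c : ℕ) : Prop where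
  nonempty : T.Nonempty
  connected : ∀ S ⊆ T, S.Nonempty → (∀ s ∈ S, ∀ t ∈ T, (s ∩ t).card = 2 → t ∈ S) → S = T
  star_connected : ∀ v, ∀ S ⊆ star T v, S.Nonempty →
    (∀ s ∈ S, ∀ t ∈ star T v, (s ∩ t).card = 2 → t ∈ S) → S = star T v
  euler : Fintype.card V + T.card + c = (edges T).card + 1
  boundary : ∃ lab : V → Fin (c + 1), (∀ e ∈ bdry T, ∀ u ∈ e, ∀ v ∈ e, lab u = lab v) ∧
    ∀ i, ∃ e ∈ bdry T, ∃ v ∈ e, lab v = i

/-- the number of edges at the vertex `v` -/
def deg {V : Type} [Fintype V] [DecidableEq V] (T : Finset (Finset V)) (v : V) : ℕ :=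
  ((edges T).filter fun e => v ∈ e).card

/-- the number -/
def num {V : Type} [Fintype V] [DecidableEq V] (r k c : ℕ) (T : Finset (Finset V)) : ℤ :=
  (1 - c) * (k + 2).choose 2 + (k - r + 1).choose 2 * (intE T).card -
    (((k + 2).choose 2 : ℤ) - (r + 2).choose 2) * (intV T).card +
    ∑ v ∈ intV T, ∑ j ∈ Finset.Icc 1 (k - r), ((r + j + 1 - j * deg T v : ℕ) : ℤ)

/-- the generic dimension is this number: every realisation has at least this dimension, and arbitrarily small
perturbations of every realisation have this dimension -/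
theorem result {V : Type} [Fintype V] [DecidableEq V] (T : Finset (Finset V)) (c : ℕ)
    (hT : Domain T c) (p₀ : V × Fin 2 → ℝ) (hp₀ : IsTriang p₀ T) (r k : ℕ) (hr : 1 ≤ r)
    (hk : 2 * r + 1 ≤ k) :
    ∃ d : ℕ, (d : ℤ) = num r k c T ∧
      (∀ p : V × Fin 2 → ℝ, IsTriang p T → d ≤ Module.finrank ℝ (SplineFn r k p T)) ∧
      ∀ p : V × Fin 2 → ℝ, IsTriang p T → ∀ ε : ℝ, 0 < ε →
        ∃ p' : V × Fin 2 → ℝ, dist p' p < ε ∧ IsTriang p' T ∧
          Module.finrank ℝ (SplineFn r k p' T) = d := by
  have hD : SplH.Dom T c := ⟨hT.nonempty, hT.connected, hT.star_connected, hT.euler, hT.boundary⟩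
  obtain ⟨d, h1, h2, h3⟩ := hD.gen_w hp₀ hr hk
  refine ⟨d, ?_, h2, h3⟩
  rw [h1]
  unfold SplH.SchH SplZ.Sch num
  have e1 : (((k + 2).choose 2 - (r + 2).choose 2 : ℕ) : ℤ) =
      ((k + 2).choose 2 : ℤ) - (r + 2).choose 2 :=
    Nat.cast_sub (Nat.choose_le_choose 2 (by omega))
  have e2 : ∑ v ∈ intV T, ∑ j ∈ Finset.Icc 1 (k - r), ((r + j + 1 - j * (nb (edges T) v).card : ℕ) : ℤ) =
      ∑ v ∈ intV T, ∑ j ∈ Finset.Icc 1 (k - r), ((r + j + 1 - j * deg T v : ℕ) : ℤ) := by
    refine Finset.sum_congr rfl fun v _ => ?_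
    refine Finset.sum_congr rfl fun j _ => ?_
    rw [SplF.nb_card_edges]
    rfl
  rw [e1, e2]
  ring

end Pool.Agent.Results.MP_92924b_an.DimensionRange
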