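import Pool.Agent.Spl1.TriFinal

set_option autoImplicit false

/-!
# The generic dimension of `S^r_(r+1)` on triangulated discs

For every `r ≥ 2` and every triangulation of a closed disc in the plane the generic dimension of the space
of `C^r` piecewise polynomials of degree at most `r + 1` is
`binom(r+3,2) + max_A (|E_I(A)| - (r+2) |A|)`.
-/

namespace Pool.Agent.Results.MP_92924b_an.LowestDegree

open Pool.Agent.Spl1

/-- `T` is the set of triangles of a triangulated disc.  For every realisation `p` the dimension of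
`S^r_(r+1)` is at least `gdim r T`, it is equal to `gdim r T` for all realisations outside a proper algebraic
set, and every realisation has arbitrarily small perturbations for which it is equal to `gdim r T`. -/
theorem result {V : Type*} [Fintype V] [DecidableEq V] (T : Finset (Finset V)) (hT : Disc T)
    (r : ℕ) (hr : 2 ≤ r) :
    (∃ Q : MvPolynomial (V × Fin 2) ℝ, Q ≠ 0 ∧ ∀ p : V × Fin 2 → ℝ, IsTriang p T →
      gdim r T ≤ Module.finrank ℝ (SplineFn r (r + 1) p T) ∧
      (MvPolynomial.eval p Q ≠ 0 → Module.finrank ℝ (SplineFn r (r + 1) p T) = gdim r T)) ∧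
    ∀ p : V × Fin 2 → ℝ, IsTriang p T → ∀ ε : ℝ, 0 < ε →
      ∃ p' : V × Fin 2 → ℝ, dist p' p < ε ∧ IsTriang p' T ∧
        Module.finrank ℝ (SplineFn r (r + 1) p' T) = gdim r T := by
  refine ⟨?_, fun p hp ε hε => exists_perturbation hp hT hr hε⟩
  obtain ⟨Q, hQ, hQ'⟩ := finrank_generic hT hr
  exact ⟨Q, hQ, fun p hp => ⟨gdim_le hp hT r, hQ' p hp⟩⟩

end Pool.Agent.Results.MP_92924b_an.LowestDegree
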