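import Pool.Agent.SplD.R2

set_option autoImplicit false

/-!
# The generic dimension of bivariate `C²` splines of every degree

`T` is the set of the triangles of a triangulated disc, `p` a realisation, `SplineFn 2 k p T` the space of
the `C²` piecewise polynomials of degree at most `k` on it. For a function `a` on the vertices with values
at most `k - 2` let
`val k T a = (k + 2 choose 2) + ∑_{e ∈ E_I} s_k(a, e) - ∑_{v ∈ V_I} ((k + 2 choose 2) - (a_v + 4 choose 2))`,
where, for an edge `e = {u, v}`, `s_k(a, e) = (k - 1 choose 2) - (a_u + 1 choose 2) - (a_v + 1 choose 2)` if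
`a_u + a_v ≤ k - 2` and `s_k(a, e) = (k - 2 - a_u) (k - 2 - a_v)` otherwise.

For every degree `k ≥ 3` the generic dimension is the maximum of `val k T`.
-/

namespace Pool.Agent.Results.MP_92924b_an.SmoothnessTwo

open Pool.Agent.Spl1

/-- the contribution of the edge `e` -/
def edgeVal {V : Type} (k : ℕ) (a : V → ℕ) (e : Finset V) : ℕ :=
  if ∑ v ∈ e, a v ≤ k - 2 then (k - 2 + 1).choose 2 - ∑ v ∈ e, (a v + 1).choose 2
  else ∏ v ∈ e, (k - 2 - a v)

/-- the value of the function `a` -/
def val {V : Type} [Fintype V] [DecidableEq V] (k : ℕ) (T : Finset (Finset V)) (a : V → ℕ) : ℤ :=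
  ((k + 2).choose 2 : ℤ) + ∑ e ∈ intE T, (edgeVal k a e : ℤ) -
    ∑ v ∈ intV T, (((k + 2).choose 2 : ℤ) - ((a v + 4).choose 2 : ℤ))

/-- the generic dimension of the space of the `C²` splines of degree `k ≥ 3` on a triangulated disc is the
maximum `d` of `val k T` over all functions `a` on the vertices with values at most `k - 2`: every
realisation has dimension at least `d`, and arbitrarily small perturbations of every realisation have
dimension `d` -/
theorem result {V : Type} [Fintype V] [DecidableEq V] (T : Finset (Finset V)) (hT : Disc T)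
    (p₀ : V × Fin 2 → ℝ) (hp₀ : IsTriang p₀ T) (k : ℕ) (hk : 3 ≤ k) :
    ∃ d : ℕ, IsGreatest {x : ℤ | ∃ a : V → ℕ, (∀ v, a v ≤ k - 2) ∧ x = val k T a} (d : ℤ) ∧
      (∀ p : V × Fin 2 → ℝ, IsTriang p T → d ≤ Module.finrank ℝ (SplineFn 2 k p T)) ∧
      ∀ p : V × Fin 2 → ℝ, IsTriang p T → ∀ ε : ℝ, 0 < ε →
        ∃ p' : V × Fin 2 → ℝ, dist p' p < ε ∧ IsTriang p' T ∧
          Module.finrank ℝ (SplineFn 2 k p' T) = d := by
  obtain ⟨d, h1, h2, h3⟩ := SplD.r2_all hT hp₀ hk
  refine ⟨d, ?_, h2, h3⟩
  have e : ∀ a : V → ℕ, val k T a = SplD.Val 2 k T a := by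
    intro a
    unfold val SplD.Val
    congr 1
    apply Finset.sum_congr rfl
    intro v _
    have e2 : 2 + a v + 2 = a v + 4 := by ring
    rw [e2]
  simp only [e]
  exact h1

end Pool.Agent.Results.MP_92924b_an.SmoothnessTwo
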