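import Pool.Agent.BSpl.SupEx

set_option autoImplicit false

/-! # A lower bound for the dimension of bivariate splines for all degrees `k > r`

`T` is a triangulation of a disc, `p` a realisation, `Spl r k T p` the space of the splines of
smoothness `r` and degree `k` (see the file `SplDefs`). For every function `a` on the
vertices with `a v ≤ k - r` the number
`SupB r k T a = (k + 2 choose 2) + ∑_{e = uv ∈ E_I} s(a_u, a_v)
- ∑_{v ∈ V_I} ((k + 2 choose 2) - (r + a_v + 2 choose 2))`
is a lower bound for the dimension of `Spl r k T p`, where `δ = k - r` and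
`s(x, y) = (δ + 1 choose 2) - (x + 1 choose 2) - (y + 1 choose 2)` for `x + y ≤ δ`,
`s(x, y) = (δ - x) (δ - y)` for `x + y > δ`.
Some `a` gives at least the lower bound of Schumaker, and `a = δ` gives `(k + 2 choose 2)`.

The bound can be improved by `m` if there are `m` edges without common vertices which are good for `a` (`GoodEdge`). This
happens for the optimal `a`: for `r = 4`, `k = 7` and a hexagon with four interior vertices the best of the bounds
`SupB 4 7 T a` is `46`, and the dimension is at least `47` for every realisation. -/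

namespace Pool.Agent.Results.MP_92924b_an.SuperBoundPlus

open BSpl

theorem result :
    (∀ (V : Type) [DecidableEq V] (r k : ℕ), r < k → ∀ T : Finset (Finset V), Disc T →
      (∀ (p : V → Pt) (a : V → ℕ) (m : ℕ) (x y : Fin m → V), IsTri T p → (∀ v, a v ≤ k - r) →
        (∀ i, GoodEdge r k T a (x i) (y i)) →
        (∀ i j, i ≠ j → x i ≠ x j ∧ x i ≠ y j ∧ y i ≠ y j) →
        SupB r k T a + m ≤ Module.finrank ℝ (Spl r k T p)) ∧
      (∃ a : V → ℕ, (∀ v, a v ≤ k - r) ∧
        ((k + 2).choose 2 + (k - r + 1).choose 2 * (EI T).card - gam r k * (VI T).card +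
          ∑ v ∈ VI T, (sig r k (nbrs T v).card : ℤ)) ≤ SupB r k T a) ∧
      SupB r k T (fun _ => k - r) = (k + 2).choose 2) ∧
    (∃ T : Finset (Finset (Fin 10)), Disc T ∧ (∃ p, IsTri T p) ∧
      (∀ a : Fin 10 → ℕ, (∀ v, a v ≤ 3) → SupB 4 7 T a ≤ 46) ∧
      ∀ p, IsTri T p → 47 ≤ Module.finrank ℝ (Spl 4 7 T p)) := by
  refine ⟨?_, hexT, hexT_disc, ⟨_, hexT_tri⟩, hexT_le, hexT_dim⟩
  intro V _ r k hk T h
  refine ⟨fun p a m x y hp ha hg hd => super_bound_m r k hk T h p hp a ha m x y hg hd, super_ge r k hk T, ?_⟩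
  unfold SupB edgeS
  have e1 : ∀ e ∈ EI T, ((if ∑ _v ∈ e, (k - r) ≤ k - r then
      (k - r + 1).choose 2 - ∑ _v ∈ e, (k - r + 1).choose 2 else ∏ _v ∈ e, (k - r - (k - r)) : ℕ) : ℤ) = 0 := by
    intro e he
    rw [mem_EI] at he
    obtain ⟨x, y, hxy, -, rfl⟩ := he
    rw [Finset.sum_pair hxy, Finset.sum_pair hxy, Finset.prod_pair hxy, if_neg (by omega)]
    simp
  have e2 : r + (k - r) + 2 = k + 2 := by omega
  rw [Finset.sum_congr rfl e1]
  dsimp only
  rw [e2]
  simp

end Pool.Agent.Results.MP_92924b_an.SuperBoundPlus
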